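import Mathlib

/-!
# Minimal invariant convex sets of finitely additive measures

Helper file: the minimax lemma, the minimal invariant compact convex sets, and the
partition of a non-amenable group into two sets of density zero.
-/

namespace Pool.Agent.W336.Dens

universe u

/-- Finitely many continuous linear functionals such that every point of a compact convex set
makes one of them small have a convex combination that is small on the whole set. -/
lemma boost {E : Type*} [AddCommGroup E] [Module ℝ E] [TopologicalSpace E]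
    {ι : Type*} (Q : Set E) (hcomp : IsCompact Q) (hconv : Convex ℝ Q) (hne : Q.Nonempty)
    (φ : ι → (E →ₗ[ℝ] ℝ)) (hφ : ∀ i, Continuous (φ i)) (c : ℝ)
    (h : ∀ ν ∈ Q, ∃ i, φ i ν < c) :
    ∃ (s : Finset ι) (α : ι → ℝ), (∀ i ∈ s, 0 ≤ α i) ∧ ∑ i ∈ s, α i = 1 ∧
      ∀ ν ∈ Q, ∑ i ∈ s, α i * φ i ν < c := by
  classical
  obtain ⟨s, hs⟩ := hcomp.elim_finite_subcover (fun i => {ν : E | φ i ν < c})
    (fun i => isOpen_lt (hφ i) continuous_const)
    (fun ν hν => by
      obtain ⟨i, hi⟩ := h ν hν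
      exact Set.mem_iUnion.2 ⟨i, hi⟩)
  let Φ : E →ₗ[ℝ] (s → ℝ) := LinearMap.pi fun i => φ i
  have hΦ : Continuous Φ := continuous_pi fun i => hφ i
  have hC1 : Convex ℝ (Φ '' Q) := hconv.linear_image Φ
  have hC2 : IsCompact (Φ '' Q) := hcomp.image hΦ
  let D : Set (s → ℝ) := {x | ∀ i, c ≤ x i}
  have hD1 : Convex ℝ D := by
    intro x hx y hy a b ha hb hab i
    have h1 := mul_le_mul_of_nonneg_left (hx i) ha
    have h2 := mul_le_mul_of_nonneg_left (hy i) hb
    have h3 : c = a * c + b * c := by rw [← add_mul, hab, one_mul]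
    simp only [Pi.add_apply, Pi.smul_apply, smul_eq_mul]
    linarith
  have hD2 : IsClosed D := by
    have : D = ⋂ i, {x | c ≤ x i} := by
      ext x
      simp [D]
    rw [this]
    exact isClosed_iInter fun i => isClosed_le continuous_const (continuous_apply i)
  have hdisj : Disjoint (Φ '' Q) D := by
    rw [Set.disjoint_left]
    rintro x ⟨ν, hν, rfl⟩ hx
    obtain ⟨i, hi⟩ := Set.mem_iUnion.1 (hs hν)
    obtain ⟨his, hi'⟩ := Set.mem_iUnion.1 hi
    have := hx ⟨i, his⟩
    exact absurd hi' (not_lt.2 this)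
  obtain ⟨f, u, v, hfu, huv, hfv⟩ :=
    geometric_hahn_banach_compact_closed hC1 hC2 hD1 hD2 hdisj
  let β : s → ℝ := fun i => f (Pi.single i 1)
  have hf : ∀ x : s → ℝ, f x = ∑ i, x i * β i := by
    intro x
    have h1 : x = ∑ i, x i • (Pi.single i (1 : ℝ) : s → ℝ) := by
      ext j
      simp [Finset.sum_apply, Pi.single_apply]
    conv_lhs => rw [h1]
    simp [β]
  have hconst : f (fun _ => c) = c * ∑ i, β i := by
    rw [hf, Finset.mul_sum]
  have hβ : ∀ i, 0 ≤ β i := by
    intro i
    by_contra hneg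
    push Not at hneg
    have hmem : ∀ t : ℝ, 0 ≤ t → (fun _ => c) + t • (Pi.single i (1 : ℝ) : s → ℝ) ∈ D := by
      intro t ht j
      simp only [Pi.add_apply, Pi.smul_apply, smul_eq_mul, Pi.single_apply]
      split_ifs <;> simp [ht]
    have h1 : ∀ t : ℝ, 0 ≤ t → v < f (fun _ => c) + t * β i := by
      intro t ht
      have := hfv _ (hmem t ht)
      rw [map_add, map_smul] at this
      exact this
    have h2 := h1 ((f (fun _ => c) - v) / (-β i)) (by
      apply div_nonneg
      · have := h1 0 le_rfl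
        linarith
      · linarith)
    have h3 : (f (fun _ => c) - v) / (-β i) * β i = -(f (fun _ => c) - v) := by
      rw [div_neg, neg_mul, div_mul_cancel₀ _ hneg.ne]
    rw [h3] at h2
    linarith
  have hlt : ∀ ν ∈ Q, ∑ i : s, φ i ν * β i < c * ∑ i, β i := by
    intro ν hν
    have h1 := hfu _ (Set.mem_image_of_mem Φ hν)
    have h2 := hfv (fun _ => c) (fun _ => le_rfl)
    rw [hf] at h1
    rw [hconst] at h2
    have h3 : ∑ i : s, φ i ν * β i = ∑ i, (Φ ν) i * β i := rfl
    rw [h3]
    linarith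
  have hpos : 0 < ∑ i, β i := by
    rcases (Finset.sum_nonneg fun i _ => hβ i : (0 : ℝ) ≤ ∑ i, β i).lt_or_eq with h1 | h1
    · exact h1
    · exfalso
      obtain ⟨ν, hν⟩ := hne
      have h2 := hlt ν hν
      have h3 : ∀ i, β i = 0 := by
        intro i
        exact (Finset.sum_eq_zero_iff_of_nonneg (fun i _ => hβ i)).1 h1.symm i (Finset.mem_univ _)
      simp [h3] at h2
  refine ⟨s, fun i => if hi : i ∈ s then β ⟨i, hi⟩ / ∑ j, β j else 0, ?_, ?_, ?_⟩
  · intro i hi
    simp only [hi, dif_pos]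
    exact div_nonneg (hβ _) hpos.le
  · rw [← Finset.sum_attach]
    have : ∀ i ∈ s.attach, (if hi : (i : ι) ∈ s then β ⟨i, hi⟩ / ∑ j, β j else 0) =
        β i / ∑ j, β j := by
      intro i _
      simp
    rw [Finset.sum_congr rfl this, ← Finset.sum_div]
    exact div_self hpos.ne'
  · intro ν hν
    rw [← Finset.sum_attach]
    have : ∀ i ∈ s.attach, (if hi : (i : ι) ∈ s then β ⟨i, hi⟩ / ∑ j, β j else 0) * φ i ν =
        (φ i ν * β i) / ∑ j, β j := by
      intro i _
      simp only [i.2, dif_pos]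
      ring
    rw [Finset.sum_congr rfl this, ← Finset.sum_div, div_lt_iff₀ hpos]
    exact hlt ν hν

/-- The finitely additive probability measures on a set. -/
def Means (G : Type u) : Set (Set G → ℝ) :=
  {m | (∀ A, 0 ≤ m A) ∧ m Set.univ = 1 ∧ ∀ A B, Disjoint A B → m (A ∪ B) = m A + m B}

lemma means_le_one {G : Type u} {m : Set G → ℝ} (hm : m ∈ Means G) (A : Set G) : m A ≤ 1 := by
  have h1 := hm.2.2 A Aᶜ disjoint_compl_right
  rw [Set.union_compl_self, hm.2.1] at h1
  have := hm.1 Aᶜ
  linarith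

lemma convex_means (G : Type u) : Convex ℝ (Means G) := by
  intro x hx y hy a b ha hb hab
  refine ⟨fun A => ?_, ?_, fun A B hAB => ?_⟩
  · simp only [Pi.add_apply, Pi.smul_apply, smul_eq_mul]
    exact add_nonneg (mul_nonneg ha (hx.1 A)) (mul_nonneg hb (hy.1 A))
  · simp only [Pi.add_apply, Pi.smul_apply, smul_eq_mul]
    rw [hx.2.1, hy.2.1]
    linarith
  · simp only [Pi.add_apply, Pi.smul_apply, smul_eq_mul]
    rw [hx.2.2 A B hAB, hy.2.2 A B hAB]
    ring

lemma isClosed_means (G : Type u) : IsClosed (Means G) := by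
  have : Means G = (⋂ A : Set G, {m | 0 ≤ m A}) ∩ {m | m Set.univ = 1} ∩
      ⋂ A : Set G, ⋂ B : Set G, ⋂ _ : Disjoint A B, {m | m (A ∪ B) = m A + m B} := by
    ext m
    simp [Means, and_assoc]
  rw [this]
  refine (IsClosed.inter ?_ ?_).inter ?_
  · exact isClosed_iInter fun A => isClosed_le continuous_const (continuous_apply A)
  · exact isClosed_eq (continuous_apply _) continuous_const
  · exact isClosed_iInter fun A => isClosed_iInter fun B => isClosed_iInter fun _ =>
      isClosed_eq (continuous_apply _) ((continuous_apply A).add (continuous_apply B))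

lemma isCompact_means (G : Type u) : IsCompact (Means G) := by
  refine IsCompact.of_isClosed_subset (isCompact_univ_pi fun _ : Set G => isCompact_Icc (a := (0 : ℝ))
    (b := 1)) (isClosed_means G) ?_
  intro m hm A _
  exact ⟨hm.1 A, means_le_one hm A⟩

lemma nonempty_means (G : Type u) [Nonempty G] : (Means G).Nonempty := by
  classical
  obtain ⟨g⟩ := ‹Nonempty G›
  refine ⟨fun A => if g ∈ A then 1 else 0, fun A => ?_, ?_, fun A B hAB => ?_⟩
  · dsimp only
    split_ifs <;> norm_num
  · simp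
  · by_cases hA : g ∈ A
    · have hB : g ∉ B := Set.disjoint_left.1 hAB hA
      simp [hA, hB]
    · simp [hA]

variable {G : Type u} [Group G]

/-- The action of the group on the set functions. -/
def T (g : G) : (Set G → ℝ) →ₗ[ℝ] (Set G → ℝ) where
  toFun m := fun A => m {x | g * x ∈ A}
  map_add' _ _ := rfl
  map_smul' _ _ := rfl

lemma T_apply (g : G) (m : Set G → ℝ) (A : Set G) : T g m A = m {x | g * x ∈ A} := rfl

lemma T_one (m : Set G → ℝ) : T (1 : G) m = m := by
  ext A
  simp [T_apply]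

lemma T_mul (g h : G) (m : Set G → ℝ) : T (g * h) m = T g (T h m) := by
  ext A
  simp only [T_apply, Set.mem_ofPred_eq, mul_assoc]

lemma continuous_T (g : G) : Continuous (T g : (Set G → ℝ) → (Set G → ℝ)) :=
  continuous_pi fun _ => continuous_apply _

lemma T_mem_means (g : G) {m : Set G → ℝ} (hm : m ∈ Means G) : T g m ∈ Means G := by
  refine ⟨fun A => hm.1 _, ?_, fun A B hAB => ?_⟩
  · rw [T_apply]
    simpa using hm.2.1
  · simp only [T_apply]
    rw [← hm.2.2]
    · rfl
    · rw [Set.disjoint_left] at hAB ⊢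
      intro x hx hx'
      exact hAB hx hx'

/-- Closed convex invariant nonempty sets of finitely additive probability measures. -/
def InvSets (G : Type u) [Group G] : Set (Set (Set G → ℝ)) :=
  {Q | Q ⊆ Means G ∧ Q.Nonempty ∧ IsClosed Q ∧ Convex ℝ Q ∧ ∀ g : G, ∀ m ∈ Q, T g m ∈ Q}

lemma exists_minimal : ∃ Q : Set (Set G → ℝ), Minimal (· ∈ InvSets G) Q := by
  obtain ⟨Q, -, hQ⟩ := zorn_superset_nonempty (InvSets G) (by
    intro c hc hchain hne
    refine ⟨⋂₀ c, ⟨?_, ?_, ?_, ?_, ?_⟩, fun s hs => Set.sInter_subset_of_mem hs⟩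
    · obtain ⟨Q, hQ⟩ := hne
      exact (Set.sInter_subset_of_mem hQ).trans (hc hQ).1
    · have : Nonempty c := hne.to_subtype
      refine IsCompact.nonempty_sInter_of_directed_nonempty_isCompact_isClosed ?_ ?_ ?_ ?_
      · intro x hx y hy
        rcases hchain.total hx hy with h | h
        · exact ⟨x, hx, subset_rfl, h⟩
        · exact ⟨y, hy, h, subset_rfl⟩
      · exact fun U hU => (hc hU).2.1
      · exact fun U hU => (isCompact_means G).of_isClosed_subset (hc hU).2.2.1 (hc hU).1
      · exact fun U hU => (hc hU).2.2.1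
    · exact isClosed_sInter fun U hU => (hc hU).2.2.1
    · exact convex_sInter fun U hU => (hc hU).2.2.2.1
    · intro g m hm U hU
      exact (hc hU).2.2.2.2 g m (hm U hU))
    (Means G) ⟨subset_rfl, nonempty_means G, isClosed_means G, convex_means G,
      fun g m hm => T_mem_means g hm⟩
  exact ⟨Q, hQ⟩

/-- In a minimal set every orbit gets close to the minimum of every functional. -/
lemma orbit_small {Q : Set (Set G → ℝ)} (hQ : Minimal (· ∈ InvSets G) Q)
    (L : (Set G → ℝ) →ₗ[ℝ] ℝ) (hL : Continuous L) (c : ℝ) (hc : ∃ m ∈ Q, L m < c) :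
    ∀ m ∈ Q, ∃ g : G, L (T g m) < c := by
  intro m hm
  by_contra hcon
  push Not at hcon
  obtain ⟨m₀, hm₀, hlt⟩ := hc
  have hQ1 := hQ.prop
  have hmem : {m ∈ Q | ∀ g : G, c ≤ L (T g m)} ∈ InvSets G := by
    refine ⟨fun x hx => hQ1.1 hx.1, ⟨m, hm, hcon⟩, ?_, ?_, ?_⟩
    · have : {m ∈ Q | ∀ g : G, c ≤ L (T g m)} = Q ∩ ⋂ g : G, {m | c ≤ L (T g m)} := by
        ext x
        simp
      rw [this]
      exact hQ1.2.2.1.inter (isClosed_iInter fun g =>
        isClosed_le continuous_const (hL.comp (continuous_T g)))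
    · intro x hx y hy a b ha hb hab
      refine ⟨hQ1.2.2.2.1 hx.1 hy.1 ha hb hab, fun g => ?_⟩
      rw [map_add, map_smul, map_smul, map_add, map_smul, map_smul, smul_eq_mul, smul_eq_mul]
      have h1 := mul_le_mul_of_nonneg_left (hx.2 g) ha
      have h2 := mul_le_mul_of_nonneg_left (hy.2 g) hb
      have h3 : c = a * c + b * c := by rw [← add_mul, hab, one_mul]
      linarith
    · intro g x hx
      refine ⟨hQ1.2.2.2.2 g x hx.1, fun h => ?_⟩
      rw [← T_mul]
      exact hx.2 _
  have hsub := hQ.le_of_le hmem (fun x hx => hx.1)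
  have h1 := (hsub hm₀).2 1
  rw [T_one] at h1
  linarith

/-- In a minimal set every functional is uniformly close to its minimum for a suitable average. -/
lemma average_small {Q : Set (Set G → ℝ)} (hQ : Minimal (· ∈ InvSets G) Q)
    (L : (Set G → ℝ) →ₗ[ℝ] ℝ) (hL : Continuous L) (c : ℝ) (hc : ∃ m ∈ Q, L m < c) :
    ∃ (s : Finset G) (α : G → ℝ), (∀ g ∈ s, 0 ≤ α g) ∧ ∑ g ∈ s, α g = 1 ∧
      ∀ m ∈ Q, ∑ g ∈ s, α g * L (T g m) < c := by
  have hQ1 := hQ.prop
  exact boost Q ((isCompact_means G).of_isClosed_subset hQ1.2.2.1 hQ1.1) hQ1.2.2.2.1 hQ1.2.1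
    (fun g => L.comp (T g)) (fun g => hL.comp (continuous_T g)) c (orbit_small hQ L hL c hc)

end Pool.Agent.W336.Dens
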